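import Pool.Agent.W_MP_abf9c7_co.Asymp

/-!
# Affirmative answer to Q1 of `MP_abf9c7_co`

`τ_s(a,b) = Θ(b^{1/(2s+2)})` as `b → ∞`, for every `s ≥ 0` and every fixed `a ≥ s + 2`.
All definitions are in `Pool/Agent/W_MP_abf9c7_co/Defs.lean`.
-/

namespace Pool.Agent.Results.MP_abf9c7_co.OhbaTheta

open Pool.Agent.W_MP_abf9c7_co

/-- **Q1, affirmative.** For every `s` and every fixed `a ≥ s + 2`, the generalized Ohba number
satisfies `τ_s(a,b) = Θ(b^{1/(2s+2)})` as `b → ∞`. -/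
theorem result : ∀ s a : ℕ, s + 2 ≤ a →
    (fun b : ℕ => (ohbaNumber s a b : ℝ)) =Θ[Filter.atTop]
      (fun b : ℕ => (b : ℝ) ^ (1 / (2 * (s : ℝ) + 2))) :=
  fun s a ha => ohba_theta s a ha

end Pool.Agent.Results.MP_abf9c7_co.OhbaTheta
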